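import Pool.Agent.Helper68.VN.GoalsA

/-!
# Project PG (MP_a41896_nt): packet PG-EXPB (expansion of the auxiliary function)
-/

set_option autoImplicit false

open MvPolynomial

namespace Pool.Agent.Helper91.VN

open WeierstrassCurve Height
open Pool.Agent.Helper29.BL Pool.Agent.Helper92.Ru Pool.Agent.Helper42.SG
open Pool.Agent.Helper77.SGC (N0)
open Pool.Agent.Helper68.VN

noncomputable section

/-- **EXPB** -/
theorem t_EXPB (hB : BLKX) : EXPB := by
  intro K _ _ σ _ _ W B B' D d c J f Df n M δ p e S T _ gr E r hS hC cc x0 ψ0 A _ _ X Ψ hX lam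
  have key : ∀ α : Ix σ n M δ e,
      (∏ j, blkB (mapS A W) M (e j) (lam j) (X j) (Ψ j) (cn A x0) (cn A ψ0) (α.1 j)) =
      ∑ μ : Fin n → σ → Fin 2, ∑ t : ∀ j, T j,
        (∏ j, ((∏ i, (Ψ j i * cn A ψ0 i) ^ (μ j i).val) * aeval (X j) (E j (t j)))) *
          algebraMap K A (∏ j, ∑ g ∈ box σ (2 * M), Gam S M (e j) (r j (t j)) (lam j) (μ j) g (α.1 j) *
            ∏ i, x0 i ^ g i) := by
    intro α
    have h1 : ∀ j : Fin n,
        blkB (mapS A W) M (e j) (lam j) (X j) (Ψ j) (cn A x0) (cn A ψ0) (α.1 j) =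
        ∑ μ : σ → Fin 2, ∑ t : T j,
          ((∏ i, (Ψ j i * cn A ψ0 i) ^ (μ i).val) * aeval (X j) (E j t)) *
          algebraMap K A (∑ g ∈ box σ (2 * M), Gam S M (e j) (r j t) (lam j) μ g (α.1 j) *
            ∏ i, x0 i ^ g i) := by
      intro j
      rw [hB K σ W B B' D d c J f Df M p (e j) S (T j) (gr j) (E j) (r j) hS (hC j) A (X j) (Ψ j)
        (cn A x0) (cn A ψ0) (lam j) (α.1 j) (hX.blk j) hX.ref]
      refine Finset.sum_congr rfl fun μ _ => Finset.sum_congr rfl fun t _ => ?_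
      rw [map_sum]
      refine congrArg _ (Finset.sum_congr rfl fun g _ => ?_)
      rw [map_mul, map_prod]
      simp only [map_pow, cn]
    rw [Finset.prod_congr rfl (fun j _ => h1 j), Finset.prod_univ_sum, Fintype.piFinset_univ]
    apply Finset.sum_congr rfl
    intro μ _
    rw [Finset.prod_univ_sum, Fintype.piFinset_univ]
    apply Finset.sum_congr rfl
    intro t _
    rw [Finset.prod_mul_distrib, map_prod]
  unfold PB
  simp only [key]
  simp only [Finset.mul_sum, Finset.sum_mul]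
  rw [Finset.sum_comm]
  apply Finset.sum_congr rfl
  intro μ _
  rw [Finset.sum_comm]
  apply Finset.sum_congr rfl
  intro t _
  unfold BrB
  rw [map_sum, Finset.mul_sum]
  apply Finset.sum_congr rfl
  intro α _
  have h2 : (∏ i, cn A x0 i ^ (α.2 i).val) = algebraMap K A (∏ i, x0 i ^ (α.2 i).val) := by
    rw [map_prod]
    simp only [map_pow, cn]
  rw [h2, map_mul, map_mul]
  ring

end

end Pool.Agent.Helper91.VN
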